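import Mathlib

/-!
# An explicit dimension-free bound in the decoupled Markov group conjecture

Let `Q` generate a column stochastic semigroup on `ℝ^d` and let `K` be its maximal rate, attained
at the state `i₀`.  With `Q + K ≥ 0` one has `‖exp (z Q)‖ ≤ exp (K (|z| - Re z))` for every complex
`z`, hence also `‖exp (z Q)‖ ≤ M exp (K (|1 + z| - Re (1 + z)))` when `‖exp (-Q)‖ ≤ M`.
Put `G z = ∑ j, f j * (exp (z Q)) j i₀` with `f = -1` at `i₀` and `1` elsewhere, so that
`G 0 = -1`, `G' 0 = 2 K` and `|G| ≤ 1` on `[0, ∞)`.  The function `G (w²) exp (-c w²)` is bounded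
by `1` on the real line and by `M exp (4 K B⁴)` on `|Im w| ≤ B` for `c = 4 K B²`, `B² ≤ 1/2`; the
three lines theorem and Cauchy's estimate for `G' 0` on the circle `|z| = (B / L)²` give
`2 K ≤ e L² / B²`, `L = log M + 4 K B⁴`, and the choice `4 K B⁴ = 1 + log M` gives the result.
-/

set_option autoImplicit false

namespace Pool.Agent.Results.MP_c4a887_an.PolylogBound

open Complex Complex.HadamardThreeLines

/-! ### Complex analysis -/

/-- `|1 + w²| - Re (1 + w²) ≤ 4 x² y²` for `w = x + i y`, `y² ≤ 1/2`. -/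
theorem norm_sub_re_le (w : ℂ) (hw : w.im ^ 2 ≤ 1 / 2) :
    ‖1 + w ^ 2‖ - (1 + w ^ 2).re ≤ 4 * w.re ^ 2 * w.im ^ 2 := by
  have hre : (1 + w ^ 2).re = 1 + w.re ^ 2 - w.im ^ 2 := by
    simp [pow_two]; ring
  have him : (1 + w ^ 2).im = 2 * w.re * w.im := by
    simp [pow_two]; ring
  have h1 : ‖1 + w ^ 2‖ ≤ (1 + w ^ 2).re + (1 + w ^ 2).im ^ 2 := by
    rw [Complex.norm_eq_sqrt_sq_add_sq]
    apply Real.sqrt_le_iff.2
    have hX : 1 / 2 ≤ (1 + w ^ 2).re := by rw [hre]; nlinarith [sq_nonneg w.re]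
    constructor
    · nlinarith [sq_nonneg (1 + w ^ 2).im]
    · have := sq_nonneg ((1 + w ^ 2).im)
      nlinarith [mul_nonneg this this]
  rw [him] at h1
  nlinarith

/-- the analytic core -/
theorem core {G : ℂ → ℂ} (hG : Differentiable ℂ G) {K M B L : ℝ} (hK : 0 < K) (hM : 1 ≤ M)
    (hB : 0 < B) (hB2 : B ^ 2 ≤ 1 / 2) (hL : L = Real.log M + 4 * K * B ^ 4) (hL1 : 1 ≤ L)
    (h1 : ∀ t : ℝ, 0 ≤ t → ‖G t‖ ≤ 1)
    (h2 : ∀ z : ℂ, ‖G z‖ ≤ M * Real.exp (K * (‖1 + z‖ - (1 + z).re))) :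
    ‖deriv G 0 - ((4 * K * B ^ 2 : ℝ) : ℂ) * G 0‖ ≤ Real.exp 1 * L ^ 2 / B ^ 2 := by
  set c : ℝ := 4 * K * B ^ 2 with hc
  have hc0 : 0 < c := by positivity
  set H : ℂ → ℂ := fun z => G z * Complex.exp (-(c : ℂ) * z) with hH
  have hHd : Differentiable ℂ H := by
    apply hG.mul
    fun_prop
  have hEL : M * Real.exp (4 * K * B ^ 4) = Real.exp L := by
    rw [hL, Real.exp_add, Real.exp_log (by linarith)]
  -- bound on the closed strip
  have hstrip : ∀ w : ℂ, |w.im| ≤ B → ‖H (w ^ 2)‖ ≤ Real.exp L := by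
    intro w hw
    have hw2 : w.im ^ 2 ≤ B ^ 2 := sq_le_sq' (by linarith [neg_abs_le w.im]) (le_of_abs_le hw)
    have hre : (-(c : ℂ) * w ^ 2).re = -c * (w.re ^ 2 - w.im ^ 2) := by
      simp [pow_two]
    have e1 : ‖H (w ^ 2)‖ = ‖G (w ^ 2)‖ * Real.exp (-c * (w.re ^ 2 - w.im ^ 2)) := by
      simp only [hH]
      rw [norm_mul, Complex.norm_exp, hre]
    rw [e1, ← hEL]
    have e2 := h2 (w ^ 2)
    have e3 := norm_sub_re_le w (by linarith)
    calc ‖G (w ^ 2)‖ * Real.exp (-c * (w.re ^ 2 - w.im ^ 2))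
        ≤ (M * Real.exp (K * (‖1 + w ^ 2‖ - (1 + w ^ 2).re))) *
            Real.exp (-c * (w.re ^ 2 - w.im ^ 2)) := by gcongr
      _ = M * Real.exp (K * (‖1 + w ^ 2‖ - (1 + w ^ 2).re) + -c * (w.re ^ 2 - w.im ^ 2)) := by
          rw [Real.exp_add]; ring
      _ ≤ M * Real.exp (4 * K * B ^ 4) := by
          gcongr
          have e4 : K * (‖1 + w ^ 2‖ - (1 + w ^ 2).re) ≤ K * (4 * w.re ^ 2 * w.im ^ 2) := by gcongr
          have e5 : K * (4 * w.re ^ 2 * w.im ^ 2) ≤ K * (4 * w.re ^ 2 * B ^ 2) := by gcongr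
          have e6 : K * B ^ 2 * w.im ^ 2 ≤ K * B ^ 2 * B ^ 2 := by gcongr
          rw [hc]
          nlinarith
  -- bound on the real axis
  have hreal : ∀ w : ℂ, w.im = 0 → ‖H (w ^ 2)‖ ≤ 1 := by
    intro w hw
    have hwr : w = (w.re : ℂ) := Complex.ext (by simp) (by simp [hw])
    have e0 : w ^ 2 = ((w.re ^ 2 : ℝ) : ℂ) := by rw [hwr]; simp
    simp only [hH]
    rw [norm_mul, Complex.norm_exp]
    have e1 : ‖G (w ^ 2)‖ ≤ 1 := by rw [e0]; exact h1 _ (by positivity)
    have e2 : Real.exp ((-(c : ℂ) * w ^ 2).re) ≤ 1 := by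
      rw [e0]
      apply Real.exp_le_one_iff.2
      rw [← Complex.ofReal_neg, ← Complex.ofReal_mul, Complex.ofReal_re]
      nlinarith [sq_nonneg w.re]
    exact mul_le_one₀ e1 (Real.exp_nonneg _) e2
  -- three lines
  have hthree : ∀ w : ℂ, 0 ≤ w.im → w.im ≤ B → ‖H (w ^ 2)‖ ≤ Real.exp (L * (w.im / B)) := by
    intro w hw0 hwB
    set f : ℂ → ℂ := fun ζ => H ((I * ζ) ^ 2) with hf
    have hfd : Differentiable ℂ f := by
      apply hHd.comp
      fun_prop
    have him : ∀ ζ : ℂ, (I * ζ).im = ζ.re := by intro ζ; simp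
    have key := norm_le_interp_of_mem_verticalClosedStrip' (f := f) (z := -I * w) (a := 1)
      (b := Real.exp L) (l := 0) (u := B) hB
      (by simp only [verticalClosedStrip, Set.mem_preimage, Set.mem_Icc]
          constructor <;> simp [hw0, hwB])
      hfd.diffContOnCl
      (by
        refine ⟨Real.exp L, ?_⟩
        rintro _ ⟨ζ, hζ, rfl⟩
        simp only [verticalClosedStrip, Set.mem_preimage, Set.mem_Icc] at hζ
        exact hstrip _ (by rw [him, abs_le]; constructor <;> linarith [hζ.1, hζ.2]))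
      (by
        intro ζ hζ
        simp only [Set.mem_preimage, Set.mem_singleton_iff] at hζ
        exact hreal _ (by rw [him, hζ]))
      (by
        intro ζ hζ
        simp only [Set.mem_preimage, Set.mem_singleton_iff] at hζ
        exact hstrip _ (by rw [him, hζ, abs_of_pos hB]))
    have e1 : (-I * w).re = w.im := by simp
    have e2 : I * (-I * w) = w := by
      rw [← mul_assoc]; simp
    simp only [hf] at key
    rw [e1, e2, Real.one_rpow, one_mul, ← Real.exp_mul] at key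
    simpa using key
  -- the circle
  set s : ℝ := B / L with hs
  have hs0 : 0 < s := by positivity
  have hsB : s ≤ B := div_le_self hB.le hL1
  have hcirc : ∀ z ∈ Metric.sphere (0 : ℂ) (s ^ 2), ‖H z‖ ≤ Real.exp 1 := by
    intro z hz
    rw [mem_sphere_zero_iff_norm] at hz
    obtain ⟨w, hw⟩ : ∃ w : ℂ, w ^ 2 = z := IsAlgClosed.exists_pow_nat_eq z (by norm_num)
    have hwn : ‖w‖ = s := by
      have : ‖w‖ ^ 2 = s ^ 2 := by rw [← norm_pow, hw, hz]
      exact (sq_eq_sq₀ (norm_nonneg _) hs0.le).1 this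
    obtain ⟨v, hv, hv0⟩ : ∃ v : ℂ, v ^ 2 = z ∧ 0 ≤ v.im ∧ ‖v‖ = s := by
      rcases le_total 0 w.im with h | h
      · exact ⟨w, hw, h, hwn⟩
      · exact ⟨-w, by rw [neg_sq, hw], by simpa using h, by rw [norm_neg, hwn]⟩
    have hvs : v.im ≤ s := by
      rw [← hv0.2]; exact (le_abs_self _).trans (Complex.abs_im_le_norm v)
    rw [← hv]
    refine (hthree v hv0.1 (hvs.trans hsB)).trans ?_
    apply Real.exp_le_exp.2
    have : L * (v.im / B) ≤ L * (s / B) := by gcongr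
    refine this.trans (le_of_eq ?_)
    rw [hs]; field_simp
  have hcau := Complex.norm_deriv_le_of_forall_mem_sphere_norm_le (f := H) (c := 0)
    (R := s ^ 2) (C := Real.exp 1) (by positivity) hHd.diffContOnCl hcirc
  have hder : deriv H 0 = deriv G 0 - (c : ℂ) * G 0 := by
    have a1 : HasDerivAt G (deriv G 0) 0 := (hG 0).hasDerivAt
    have a2 : HasDerivAt (fun z : ℂ => Complex.exp (-(c : ℂ) * z)) (-(c : ℂ)) 0 := by
      have := ((hasDerivAt_id (0 : ℂ)).const_mul (-(c : ℂ))).cexp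
      simpa using this
    have a3 := (a1.mul a2).deriv
    have a4 : deriv H 0 = deriv G 0 * Complex.exp (-(c : ℂ) * 0) + G 0 * -(c : ℂ) := a3
    rw [a4]; simp; ring
  rw [← hder]
  refine hcau.trans (le_of_eq ?_)
  rw [hs]; field_simp

/-! ### Matrix exponentials -/

section Mat

open scoped Matrix.Norms.Operator

variable {d : ℕ}

theorem sum_row_le (A : Matrix (Fin d) (Fin d) ℂ) (i : Fin d) : ∑ j, ‖A i j‖ ≤ ‖A‖ := by
  rw [Matrix.linfty_opNorm_def]
  have : ∑ j, ‖A i j‖₊ ≤ Finset.univ.sup fun i => ∑ j, ‖A i j‖₊ :=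
    Finset.le_sup (f := fun i => ∑ j, ‖A i j‖₊) (Finset.mem_univ i)
  have h := NNReal.coe_le_coe.2 this
  push_cast at h
  exact h

theorem norm_le_of_rows (A : Matrix (Fin d) (Fin d) ℂ) {C : ℝ} (hC : 0 ≤ C)
    (h : ∀ i, ∑ j, ‖A i j‖ ≤ C) : ‖A‖ ≤ C := by
  rw [Matrix.linfty_opNorm_def]
  have : (Finset.univ.sup fun i => ∑ j, ‖A i j‖₊) ≤ ⟨C, hC⟩ := by
    apply Finset.sup_le
    intro i _
    refine NNReal.coe_le_coe.1 ?_
    push_cast
    exact h i
  exact NNReal.coe_le_coe.2 this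

theorem norm_exp_le [Nonempty (Fin d)] (x : Matrix (Fin d) (Fin d) ℂ) :
    ‖NormedSpace.exp x‖ ≤ Real.exp ‖x‖ := by
  rw [NormedSpace.exp_eq_tsum ℂ]
  have hs := NormedSpace.norm_expSeries_summable' (𝕂 := ℂ) x
  refine (norm_tsum_le_tsum_norm hs).trans ?_
  rw [Real.exp_eq_exp_ℝ, NormedSpace.exp_eq_tsum ℝ]
  refine hs.tsum_le_tsum (fun n => ?_) (NormedSpace.expSeries_summable' (𝕂 := ℝ) ‖x‖)
  rw [norm_smul, smul_eq_mul, norm_inv]
  have h1 : ‖((n.factorial : ℕ) : ℂ)‖ = (n.factorial : ℝ) := by simp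
  rw [h1]
  gcongr
  exact norm_pow_le x n

/-- the key growth bound -/
theorem growth [Nonempty (Fin d)] (A : Matrix (Fin d) (Fin d) ℂ) {K : ℝ}
    (hN : ‖A + (K : ℂ) • (1 : Matrix (Fin d) (Fin d) ℂ)‖ ≤ K) (z : ℂ) :
    ‖NormedSpace.exp (z • A)‖ ≤ Real.exp (K * (‖z‖ - z.re)) := by
  set N := A + (K : ℂ) • (1 : Matrix (Fin d) (Fin d) ℂ) with hNdef
  have e1 : z • A = z • N + (-(z * K)) • (1 : Matrix (Fin d) (Fin d) ℂ) := by
    rw [hNdef, smul_add, smul_smul, neg_smul]; abel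
  have hc : Commute (z • N) ((-(z * K)) • (1 : Matrix (Fin d) (Fin d) ℂ)) :=
    (Commute.one_right _).smul_right _
  have e2 : NormedSpace.exp ((-(z * K)) • (1 : Matrix (Fin d) (Fin d) ℂ)) =
      Complex.exp (-(z * K)) • (1 : Matrix (Fin d) (Fin d) ℂ) := by
    have := NormedSpace.algebraMap_exp_comm (𝕂 := ℂ) (𝔸 := Matrix (Fin d) (Fin d) ℂ) (-(z * K))
    rw [Algebra.algebraMap_eq_smul_one, Algebra.algebraMap_eq_smul_one, ← Complex.exp_eq_exp_ℂ]
      at this
    exact this.symm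
  have e5 : NormedSpace.exp (z • N + (-(z * K)) • (1 : Matrix (Fin d) (Fin d) ℂ)) =
      NormedSpace.exp (z • N) * NormedSpace.exp ((-(z * K)) • (1 : Matrix (Fin d) (Fin d) ℂ)) :=
    Matrix.exp_add_of_commute _ _ hc
  rw [e1, e5, e2]
  refine (norm_mul_le _ _).trans ?_
  have e3 : ‖NormedSpace.exp (z • N)‖ ≤ Real.exp (‖z‖ * K) := by
    refine (norm_exp_le _).trans (Real.exp_le_exp.2 ?_)
    rw [norm_smul]
    gcongr
  have e4 : ‖Complex.exp (-(z * K)) • (1 : Matrix (Fin d) (Fin d) ℂ)‖ = Real.exp (-(z.re * K)) := by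
    rw [norm_smul, norm_one, mul_one, Complex.norm_exp]
    simp
  rw [e4]
  calc _ ≤ Real.exp (‖z‖ * K) * Real.exp (-(z.re * K)) := by gcongr
    _ = Real.exp (K * (‖z‖ - z.re)) := by rw [← Real.exp_add]; ring_nf

/-- real and complex exponentials -/
theorem exp_map (Q : Matrix (Fin d) (Fin d) ℝ) :
    NormedSpace.exp ((Q.map (fun x : ℝ => (x : ℂ))).transpose) =
      ((NormedSpace.exp Q).map (fun x : ℝ => (x : ℂ))).transpose := by
  rw [Matrix.exp_transpose]
  have hcont : Continuous (Complex.ofRealHom.mapMatrix : Matrix (Fin d) (Fin d) ℝ →+*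
      Matrix (Fin d) (Fin d) ℂ) := by
    apply continuous_matrix
    intro i j
    simp only [RingHom.mapMatrix_apply, Matrix.map_apply]
    exact Complex.continuous_ofReal.comp (continuous_id.matrix_elem i j)
  have := NormedSpace.map_exp (Complex.ofRealHom.mapMatrix : Matrix (Fin d) (Fin d) ℝ →+*
      Matrix (Fin d) (Fin d) ℂ) hcont Q
  have e : NormedSpace.exp (Q.map (fun x : ℝ => (x : ℂ))) =
      (NormedSpace.exp Q).map (fun x : ℝ => (x : ℂ)) := this.symm
  rw [e]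

/-- derivative of the entries of the semigroup at zero -/
theorem deriv_entry (Q : Matrix (Fin d) (Fin d) ℝ) (i j : Fin d) :
    HasDerivAt (fun t : ℝ => NormedSpace.exp (t • Q) i j) (Q i j) 0 := by
  have h := hasDerivAt_exp_smul_const (𝕂 := ℝ) Q (0 : ℝ)
  rw [zero_smul, NormedSpace.exp_zero, one_mul] at h
  have h2 := hasDerivAt_pi.1 h i
  exact hasDerivAt_pi.1 h2 j

end Mat

/-- a column stochastic semigroup has nonnegative off-diagonal rates -/
theorem offdiag {d : ℕ} {Q : Matrix (Fin d) (Fin d) ℝ}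
    (h : ∀ t : ℝ, 0 ≤ t → ∀ i j : Fin d, 0 ≤ NormedSpace.exp (t • Q) i j) {i j : Fin d}
    (hij : i ≠ j) : 0 ≤ Q i j := by
  have h1 := deriv_entry Q i j
  have h0 : NormedSpace.exp ((0 : ℝ) • Q) i j = 0 := by
    rw [zero_smul, NormedSpace.exp_zero, Matrix.one_apply_ne hij]
  have h2 := h1.tendsto_slope_zero_right
  refine ge_of_tendsto h2 ?_
  filter_upwards [self_mem_nhdsWithin] with t ht
  rw [Set.mem_Ioi] at ht
  rw [zero_add, h0, sub_zero, smul_eq_mul]
  exact mul_nonneg (inv_nonneg.2 ht.le) (h t ht.le i j)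

theorem colsum {d : ℕ} {Q : Matrix (Fin d) (Fin d) ℝ}
    (h : ∀ t : ℝ, 0 ≤ t → ∀ j : Fin d, ∑ i : Fin d, NormedSpace.exp (t • Q) i j = 1) (j : Fin d) :
    ∑ i, Q i j = 0 := by
  have h1 : HasDerivAt (fun t : ℝ => ∑ i, NormedSpace.exp (t • Q) i j) (∑ i, Q i j) 0 :=
    HasDerivAt.fun_sum fun i _ => deriv_entry Q i j
  have h2 := h1.tendsto_slope_zero_right
  refine tendsto_nhds_unique h2 ?_
  refine tendsto_const_nhds.congr' ?_
  filter_upwards [self_mem_nhdsWithin] with t ht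
  rw [Set.mem_Ioi] at ht
  rw [zero_add, h t ht.le, h 0 le_rfl, sub_self, smul_zero]

open scoped Matrix.Norms.Operator in
/-- the bound for the maximal rate -/
theorem rate_bound {d : ℕ} {Q : Matrix (Fin d) (Fin d) ℝ} {M : ℝ} (hM : 1 ≤ M)
    (hinv : ∀ j : Fin d, ∑ i : Fin d, |NormedSpace.exp (-Q) i j| ≤ M)
    (hst : ∀ t : ℝ, 0 ≤ t → (∀ i j : Fin d, 0 ≤ NormedSpace.exp (t • Q) i j) ∧
      (∀ j : Fin d, ∑ i : Fin d, NormedSpace.exp (t • Q) i j = 1))
    (i0 : Fin d) (hmax : ∀ j, -Q j j ≤ -Q i0 i0) (hK1 : 1 + Real.log M ≤ -Q i0 i0) :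
    -Q i0 i0 ≤ 16 * Real.exp 1 ^ 2 * (1 + Real.log M) ^ 3 := by
  have : Nonempty (Fin d) := ⟨i0⟩
  set K : ℝ := -Q i0 i0 with hKdef
  set l : ℝ := 1 + Real.log M with hl
  have hlog : 0 ≤ Real.log M := Real.log_nonneg hM
  have hl1 : 1 ≤ l := by linarith
  have hK : 0 < K := by linarith
  have hoff : ∀ i j : Fin d, i ≠ j → 0 ≤ Q i j := fun i j hij =>
    offdiag (fun t ht => (hst t ht).1) hij
  have hcol : ∀ j, ∑ i, Q i j = 0 := colsum fun t ht => (hst t ht).2
  set A : Matrix (Fin d) (Fin d) ℂ := (Q.map (fun x : ℝ => (x : ℂ))).transpose with hA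
  have hAe : ∀ i j, A i j = ((Q j i : ℝ) : ℂ) := fun i j => rfl
  -- norm of the nonnegative part
  have hN : ‖A + (K : ℂ) • (1 : Matrix (Fin d) (Fin d) ℂ)‖ ≤ K := by
    apply norm_le_of_rows _ hK.le
    intro i
    have e1 : ∀ j, ‖(A + (K : ℂ) • (1 : Matrix (Fin d) (Fin d) ℂ)) i j‖ =
        Q j i + (if i = j then K else 0) := by
      intro j
      rw [Matrix.add_apply, Matrix.smul_apply, hAe, Matrix.one_apply]
      by_cases hij : i = j
      · subst hij
        simp only [if_true, smul_eq_mul, mul_one]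
        rw [← Complex.ofReal_add, Complex.norm_real, Real.norm_eq_abs, abs_of_nonneg]
        have := hmax i
        linarith
      · simp only [if_neg hij, smul_zero, add_zero]
        rw [Complex.norm_real, Real.norm_eq_abs, abs_of_nonneg (hoff j i (Ne.symm hij))]
    rw [Finset.sum_congr rfl fun j _ => e1 j, Finset.sum_add_distrib, hcol]
    simp
  -- the scalar function
  set f : Fin d → ℂ := fun j => if j = i0 then -1 else 1 with hf
  have hfn : ∀ j, ‖f j‖ = 1 := by intro j; simp only [hf]; split_ifs <;> simp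
  set G : ℂ → ℂ := fun z => ∑ j, f j * NormedSpace.exp (z • A) i0 j with hG
  have hGd : ∀ z, HasDerivAt G (∑ j, f j * (NormedSpace.exp (z • A) * A) i0 j) z := by
    intro z
    apply HasDerivAt.fun_sum
    intro j _
    apply HasDerivAt.const_mul
    have h := hasDerivAt_exp_smul_const (𝕂 := ℂ) A z
    exact hasDerivAt_pi.1 (hasDerivAt_pi.1 h i0) j
  have hGn : ∀ z, ‖G z‖ ≤ ∑ j, ‖NormedSpace.exp (z • A) i0 j‖ := by
    intro z
    refine (norm_sum_le _ _).trans (le_of_eq ?_)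
    refine Finset.sum_congr rfl fun j _ => ?_
    rw [norm_mul, hfn, one_mul]
  have hG0 : G 0 = -1 := by
    simp only [hG]
    rw [zero_smul, NormedSpace.exp_zero]
    simp [Matrix.one_apply, hf]
  have hG1 : deriv G 0 = ((2 * K : ℝ) : ℂ) := by
    rw [(hGd 0).deriv, zero_smul, NormedSpace.exp_zero, one_mul]
    have e1 : ∀ j, f j * A i0 j = ((Q j i0 - (if j = i0 then 2 * Q i0 i0 else 0) : ℝ) : ℂ) := by
      intro j
      rw [hAe]
      by_cases hj : j = i0
      · subst hj; simp only [hf, if_true]; push_cast; ring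
      · simp only [hf, if_neg hj]; push_cast; ring
    rw [Finset.sum_congr rfl fun j _ => e1 j, ← Complex.ofReal_sum, Finset.sum_sub_distrib, hcol]
    congr 1
    simp [hKdef]
  have hA1 : ∀ t : ℝ, (t : ℂ) • A = ((t • Q).map (fun x : ℝ => (x : ℂ))).transpose := by
    intro t
    ext i j
    rw [Matrix.smul_apply, hAe]
    simp
  have h1 : ∀ t : ℝ, 0 ≤ t → ‖G t‖ ≤ 1 := by
    intro t ht
    refine (hGn t).trans ?_
    rw [hA1, exp_map]
    have e1 : ∀ j, ‖((NormedSpace.exp (t • Q)).map (fun x : ℝ => (x : ℂ))).transpose i0 j‖ =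
        NormedSpace.exp (t • Q) j i0 := by
      intro j
      rw [Matrix.transpose_apply, Matrix.map_apply, Complex.norm_real, Real.norm_eq_abs,
        abs_of_nonneg ((hst t ht).1 j i0)]
    rw [Finset.sum_congr rfl fun j _ => e1 j, (hst t ht).2 i0]
  have hinvn : ‖NormedSpace.exp (-A)‖ ≤ M := by
    have e0 : -A = ((-Q).map (fun x : ℝ => (x : ℂ))).transpose := by
      ext i j
      rw [Matrix.neg_apply, hAe]
      simp
    rw [e0, exp_map]
    apply norm_le_of_rows _ (by linarith)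
    intro i
    have e1 : ∀ j, ‖((NormedSpace.exp (-Q)).map (fun x : ℝ => (x : ℂ))).transpose i j‖ =
        |NormedSpace.exp (-Q) j i| := by
      intro j
      rw [Matrix.transpose_apply, Matrix.map_apply, Complex.norm_real, Real.norm_eq_abs]
    rw [Finset.sum_congr rfl fun j _ => e1 j]
    exact hinv i
  have h2 : ∀ z : ℂ, ‖G z‖ ≤ M * Real.exp (K * (‖1 + z‖ - (1 + z).re)) := by
    intro z
    refine (hGn z).trans ((sum_row_le _ i0).trans ?_)
    have e1 : z • A = -A + (1 + z) • A := by rw [add_smul, one_smul]; abel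
    have hc : Commute (-A) ((1 + z) • A) := ((Commute.refl A).smul_right _).neg_left
    have e2 : NormedSpace.exp (-A + (1 + z) • A) =
        NormedSpace.exp (-A) * NormedSpace.exp ((1 + z) • A) := Matrix.exp_add_of_commute _ _ hc
    rw [e1, e2]
    refine (norm_mul_le _ _).trans ?_
    gcongr
    exact growth A hN (1 + z)
  -- parameters
  set b : ℝ := Real.sqrt (l / (4 * K)) with hb
  have hb2 : b ^ 2 = l / (4 * K) := Real.sq_sqrt (by positivity)
  have hb0 : 0 < b := Real.sqrt_pos.2 (by positivity)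
  have hbh : b ≤ 1 / 2 := by
    rw [hb, Real.sqrt_le_left (by norm_num)]
    rw [div_le_iff₀ (by positivity)]
    linarith
  set B : ℝ := Real.sqrt b with hB
  have hB0 : 0 < B := Real.sqrt_pos.2 hb0
  have hB2 : B ^ 2 = b := Real.sq_sqrt hb0.le
  have hB4 : 4 * K * B ^ 4 = l := by
    have : B ^ 4 = b ^ 2 := by rw [← hB2]; ring
    rw [this, hb2]; field_simp
  have hcore := core (G := G) (fun z => (hGd z).differentiableAt) hK hM hB0 (by rw [hB2]; exact hbh)
    (L := Real.log M + 4 * K * B ^ 4) rfl (by rw [hB4]; linarith) h1 h2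
  rw [hG0, hG1, hB4, hB2] at hcore
  have e1 : ((2 * K : ℝ) : ℂ) - ((4 * K * b : ℝ) : ℂ) * (-1) = ((2 * K + 4 * K * b : ℝ) : ℂ) := by
    push_cast; ring
  rw [e1, Complex.norm_real, Real.norm_eq_abs, abs_of_nonneg (by positivity),
    le_div_iff₀ hb0] at hcore
  have e2 : (Real.log M + l) ^ 2 ≤ (2 * l) ^ 2 := by
    apply pow_le_pow_left₀ (by positivity)
    linarith
  have he : 0 < Real.exp 1 := Real.exp_pos 1
  have e3 : 2 * K * b ≤ Real.exp 1 * (2 * l) ^ 2 := by
    have : Real.exp 1 * (Real.log M + l) ^ 2 ≤ Real.exp 1 * (2 * l) ^ 2 := by gcongr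
    have h3 : 0 ≤ 4 * K * b * b := by positivity
    nlinarith
  have e4 : (2 * K * b) ^ 2 ≤ (Real.exp 1 * (2 * l) ^ 2) ^ 2 := by
    apply pow_le_pow_left₀ (by positivity) e3
  have e5 : (2 * K * b) ^ 2 = K * l := by
    rw [mul_pow, hb2]; field_simp; ring
  rw [e5] at e4
  have e6 : K * l ≤ (16 * Real.exp 1 ^ 2 * l ^ 3) * l := by nlinarith
  exact le_of_mul_le_mul_right e6 (by linarith)

/-- **Explicit dimension-free bound.**  If `(exp (t Q))` is a column stochastic matrix semigroup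
and `‖exp (-Q)‖ ≤ M` in the operator norm of the `1`-norm (maximal absolute column sum), then
`‖Q‖ ≤ 32 e² (1 + log M)³`, whatever the dimension. -/
theorem result :
    ∀ M : ℝ, 1 ≤ M → ∀ d : ℕ, ∀ Q : Matrix (Fin d) (Fin d) ℝ,
      (∀ j : Fin d, ∑ i : Fin d, |NormedSpace.exp (-Q) i j| ≤ M) →
      (∀ t : ℝ, 0 ≤ t →
        (∀ i j : Fin d, 0 ≤ NormedSpace.exp (t • Q) i j) ∧
        (∀ j : Fin d, ∑ i : Fin d, NormedSpace.exp (t • Q) i j = 1)) →
      ∀ j : Fin d, ∑ i : Fin d, |Q i j| ≤ 32 * Real.exp 1 ^ 2 * (1 + Real.log M) ^ 3 := by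
  intro M hM d Q hinv hst j
  have : Nonempty (Fin d) := ⟨j⟩
  obtain ⟨i0, hmax⟩ := Finite.exists_max fun j : Fin d => -Q j j
  have hoff : ∀ i j : Fin d, i ≠ j → 0 ≤ Q i j := fun i j hij =>
    offdiag (fun t ht => (hst t ht).1) hij
  have hcol : ∀ j, ∑ i, Q i j = 0 := colsum fun t ht => (hst t ht).2
  have hlog : 0 ≤ Real.log M := Real.log_nonneg hM
  have he : (1 : ℝ) ≤ Real.exp 1 := Real.one_le_exp (by norm_num)
  have hbound : -Q i0 i0 ≤ 16 * Real.exp 1 ^ 2 * (1 + Real.log M) ^ 3 := by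
    rcases le_total (1 + Real.log M) (-Q i0 i0) with h | h
    · exact rate_bound hM hinv hst i0 hmax h
    · refine h.trans ?_
      have h1 : (1 + Real.log M) ≤ (1 + Real.log M) ^ 3 := by
        have : (1 : ℝ) ≤ (1 + Real.log M) ^ 2 := one_le_pow₀ (by linarith)
        nlinarith
      have h2 : (1 : ℝ) ≤ Real.exp 1 ^ 2 := one_le_pow₀ he
      have h3 : (0 : ℝ) ≤ (1 + Real.log M) ^ 3 := by positivity
      nlinarith
  have e1 : ∀ i, |Q i j| = Q i j - (if i = j then 2 * Q j j else 0) := by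
    intro i
    by_cases hij : i = j
    · subst hij
      have hneg : Q i i ≤ 0 := by
        have h4 := hcol i
        rw [← Finset.add_sum_erase _ _ (Finset.mem_univ i)] at h4
        have h5 : 0 ≤ ∑ k ∈ Finset.univ.erase i, Q k i :=
          Finset.sum_nonneg fun k hk => hoff k i (Finset.ne_of_mem_erase hk)
        linarith
      rw [if_pos rfl, abs_of_nonpos hneg]; ring
    · rw [if_neg hij, sub_zero, abs_of_nonneg (hoff i j hij)]
  rw [Finset.sum_congr rfl fun i _ => e1 i, Finset.sum_sub_distrib, hcol]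
  have e2 : ∑ i : Fin d, (if i = j then 2 * Q j j else 0) = 2 * Q j j := by simp
  rw [e2]
  have h6 : -Q j j ≤ -Q i0 i0 := hmax j
  linarith

end Pool.Agent.Results.MP_c4a887_an.PolylogBound
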